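import Mathlib

/-!
# Automorphisms of perfect Lie algebras without fixed vectors

A perfect complex Lie algebra with a diagonalizable automorphism without nonzero fixed vectors all
of whose eigenvalues have absolute value one is zero.
-/

set_option autoImplicit false

namespace Pool.Agent.J4.H13.TIG

open Module Module.End

variable {L : Type*} [LieRing L] [LieAlgebra ℂ L]

/-- the eigenvalue with angle `θ` -/
noncomputable def ev (θ : ℝ) : ℂ := Complex.exp (θ * Complex.I)

theorem ev_add (s t : ℝ) : ev (s + t) = ev s * ev t := by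
  unfold ev
  rw [← Complex.exp_add]
  push_cast
  ring_nf

theorem ev_zero : ev 0 = 1 := by simp [ev]

theorem ev_two_pi : ev (2 * Real.pi) = 1 := by
  unfold ev
  push_cast
  exact Complex.exp_two_pi_mul_I

theorem ev_ne_zero (θ : ℝ) : ev θ ≠ 0 := Complex.exp_ne_zero _

theorem exists_angle (μ : ℂ) (h1 : ‖μ‖ = 1) (h2 : μ ≠ 1) :
    ∃ θ ∈ Set.Ioo 0 (2 * Real.pi), μ = ev θ := by
  have h3 : μ = ev (Complex.arg μ) := by
    unfold ev
    have := Complex.norm_mul_exp_arg_mul_I μ
    rw [h1] at this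
    simpa using this.symm
  have hpi := Real.pi_pos
  rcases lt_trichotomy (Complex.arg μ) 0 with h | h | h
  · refine ⟨Complex.arg μ + 2 * Real.pi, ⟨?_, by linarith⟩, ?_⟩
    · have := Complex.neg_pi_lt_arg μ
      linarith
    · rw [ev_add, ev_two_pi, mul_one]
      exact h3
  · exfalso
    rw [h, ev_zero] at h3
    exact h2 h3
  · refine ⟨Complex.arg μ, ⟨h, ?_⟩, h3⟩
    have := Complex.arg_le_pi μ
    linarith

theorem ev_inj {s t : ℝ} (hs : s ∈ Set.Ioo 0 (2 * Real.pi)) (ht : t ∈ Set.Ioo 0 (2 * Real.pi))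
    (h : ev s = ev t) : s = t := by
  unfold ev at h
  obtain ⟨n, hn⟩ := Complex.exp_eq_exp_iff_exists_int.1 h
  have h1 : (s : ℂ) * Complex.I = (t + n * (2 * Real.pi) : ℝ) * Complex.I := by
    rw [hn]
    push_cast
    ring
  have h2 : (s : ℂ) = ((t + n * (2 * Real.pi) : ℝ) : ℂ) := mul_right_cancel₀ Complex.I_ne_zero h1
  have h3 : s = t + n * (2 * Real.pi) := by exact_mod_cast h2
  have hpi := Real.pi_pos
  have h4 : (-1 : ℝ) < n := by
    by_contra hc
    have : (n : ℝ) ≤ -1 := le_of_not_gt hc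
    have := hs.1
    have := ht.2
    nlinarith
  have h5 : (n : ℝ) < 1 := by
    by_contra hc
    have : (1 : ℝ) ≤ n := le_of_not_gt hc
    have := hs.2
    have := ht.1
    nlinarith
  have h6 : n = 0 := by
    have h7 : (-1 : ℤ) < n := by exact_mod_cast h4
    have h8 : n < (1 : ℤ) := by exact_mod_cast h5
    omega
  rw [h6] at h3
  simpa using h3

/-- the bracket of eigenvectors is an eigenvector -/
theorem brk_eig (σ : L →ₗ[ℂ] L) (hσ : ∀ x y, σ ⁅x, y⁆ = ⁅σ x, σ y⁆) {μ ν : ℂ} {x y : L}
    (hx : x ∈ eigenspace σ μ) (hy : y ∈ eigenspace σ ν) : ⁅x, y⁆ ∈ eigenspace σ (μ * ν) := by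
  rw [mem_eigenspace_iff] at *
  rw [hσ, hx, hy, smul_lie, lie_smul, smul_smul]

theorem base_aux (σ : L →ₗ[ℂ] L) (hσ : ∀ x y, σ ⁅x, y⁆ = ⁅σ x, σ y⁆)
    (hperf : ∀ B : Submodule ℂ L, (∀ x y : L, ⁅x, y⁆ ∈ B) → B = ⊤)
    (hspan : ⨆ μ, eigenspace σ μ = ⊤) (hone : ∀ x, σ x = x → x = 0)
    (hcirc : ∀ μ, eigenspace σ μ ≠ ⊥ → ‖μ‖ = 1)
    (S : Finset ℝ) (hS : ∀ θ, θ ∈ S ↔ θ ∈ Set.Ioo 0 (2 * Real.pi) ∧ eigenspace σ (ev θ) ≠ ⊥)
    (n : ℕ) : ∀ (t : ℝ), (S.filter (· < t)).card = n →
    ∀ B : Submodule ℂ L, (∀ x ∈ B, ∀ y ∈ B, ⁅x, y⁆ ∈ B) →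
      (∀ θ ∈ Set.Ioo 0 (2 * Real.pi), t ≤ θ → eigenspace σ (ev θ) ≤ B) → B = ⊤ := by
  have hone' : eigenspace σ 1 = ⊥ := by
    rw [Submodule.eq_bot_iff]
    intro x hx
    rw [mem_eigenspace_iff, one_smul] at hx
    exact hone x hx
  induction n with
  | zero =>
    intro t ht B _ hB
    rw [eq_top_iff, ← hspan]
    refine iSup_le fun μ => ?_
    by_cases hμ : eigenspace σ μ = ⊥
    · rw [hμ]; exact bot_le
    have hμ1 : μ ≠ 1 := by
      rintro rfl
      exact hμ hone'
    obtain ⟨θ, hθ, rfl⟩ := exists_angle μ (hcirc μ hμ) hμ1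
    apply hB θ hθ
    by_contra hlt
    push Not at hlt
    have : θ ∈ S.filter (· < t) := Finset.mem_filter.2 ⟨(hS θ).2 ⟨hθ, hμ⟩, hlt⟩
    rw [Finset.card_eq_zero] at ht
    rw [ht] at this
    simp at this
  | succ n ih =>
    intro t ht B hBB hB
    have hne : (S.filter (· < t)).Nonempty := by
      rw [← Finset.card_pos, ht]
      omega
    obtain ⟨θ, hθ⟩ : ∃ θ, θ = (S.filter (· < t)).max' hne := ⟨_, rfl⟩
    have hθm : θ ∈ S.filter (· < t) := hθ ▸ Finset.max'_mem _ _
    have hθS : θ ∈ S := (Finset.mem_filter.1 hθm).1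
    have hθt : θ < t := (Finset.mem_filter.1 hθm).2
    have hθI := ((hS θ).1 hθS).1
    have hcard : (S.filter (· < θ)).card = n := by
      have h1 : S.filter (· < θ) = (S.filter (· < t)).erase θ := by
        ext q
        rw [Finset.mem_filter, Finset.mem_erase, Finset.mem_filter]
        constructor
        · rintro ⟨hq, hq2⟩
          exact ⟨hq2.ne, hq, hq2.trans hθt⟩
        · rintro ⟨hq, hq2, hq3⟩
          refine ⟨hq2, lt_of_le_of_ne ?_ hq⟩
          rw [hθ]
          exact Finset.le_max' _ _ (Finset.mem_filter.2 ⟨hq2, hq3⟩)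
      rw [h1, Finset.card_erase_of_mem hθm, ht]
      rfl
    have ihθ := ih θ hcard
    -- `B` contains all eigenspaces with larger angle
    have hB' : ∀ q ∈ Set.Ioo 0 (2 * Real.pi), θ < q → eigenspace σ (ev q) ≤ B := by
      intro q hq hθq
      by_cases hqt : t ≤ q
      · exact hB q hq hqt
      · push Not at hqt
        by_cases hz : eigenspace σ (ev q) = ⊥
        · rw [hz]; exact bot_le
        · exfalso
          have h1 : q ∈ S.filter (· < t) := Finset.mem_filter.2 ⟨(hS q).2 ⟨hq, hz⟩, hqt⟩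
          have h2 := Finset.le_max' _ _ h1
          rw [← hθ] at h2
          linarith
    let R : Submodule ℂ L := ⨆ (μ : ℂ) (_ : μ ≠ ev θ), eigenspace σ μ
    let T : Submodule ℂ L := (B ⊓ eigenspace σ (ev θ)) ⊔ R
    have hT1 : ∀ x ∈ B, x ∈ eigenspace σ (ev θ) → x ∈ T := fun x hx hx' =>
      Submodule.mem_sup_left ⟨hx, hx'⟩
    have hT2 : ∀ μ, μ ≠ ev θ → ∀ x ∈ eigenspace σ μ, x ∈ T := by
      intro μ hμ x hx
      refine Submodule.mem_sup_right ?_
      exact (le_iSup₂_of_le (f := fun (μ : ℂ) (_ : μ ≠ ev θ) => eigenspace σ μ) μ hμ le_rfl) hx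
    let E : Submodule ℂ L :=
      { carrier := {y | ∀ v, ⁅y, v⁆ ∈ T}
        add_mem' := by
          intro a b ha hb v
          rw [add_lie]
          exact T.add_mem (ha v) (hb v)
        zero_mem' := by
          intro v
          rw [zero_lie]
          exact T.zero_mem
        smul_mem' := by
          intro c a ha v
          rw [smul_lie]
          exact T.smul_mem c (ha v) }
    have hE : E = ⊤ := by
      apply ihθ E
      · intro x hx y hy v
        rw [lie_lie]
        exact T.sub_mem (hx _) (hy _)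
      · intro q hq hθq y hy v
        have hv : v ∈ ⨆ μ, eigenspace σ μ := by rw [hspan]; trivial
        induction hv using Submodule.iSup_induction' with
        | mem μ x hx =>
          by_cases hμ : ev q * μ = ev θ
          · rcases eq_or_lt_of_le hθq with h | h
            · -- `μ = 1`
              have hμ1 : μ = 1 := by
                rw [← h] at hμ
                exact mul_left_cancel₀ (ev_ne_zero θ) (by rw [hμ, mul_one])
              rw [hμ1, hone', Submodule.mem_bot] at hx
              rw [hx, lie_zero]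
              exact T.zero_mem
            · have hμ2 : μ = ev (2 * Real.pi + θ - q) := by
                apply mul_left_cancel₀ (ev_ne_zero q)
                rw [hμ, ← ev_add, show q + (2 * Real.pi + θ - q) = θ + 2 * Real.pi by ring, ev_add,
                  ev_two_pi, mul_one]
              have h3 : 2 * Real.pi + θ - q ∈ Set.Ioo 0 (2 * Real.pi) := by
                constructor
                · linarith [hq.2, hθI.1]
                · linarith
              have h4 : θ < 2 * Real.pi + θ - q := by linarith [hq.2]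
              apply hT1
              · apply hBB
                · exact hB' q hq h hy
                · rw [hμ2] at hx
                  exact hB' _ h3 h4 hx
              · rw [← hμ]
                exact brk_eig σ hσ hy hx
          · exact hT2 _ hμ _ (brk_eig σ hσ hy hx)
        | zero => rw [lie_zero]; exact T.zero_mem
        | add x y hx hy ihx ihy => rw [lie_add]; exact T.add_mem ihx ihy
    have hTt : T = ⊤ := by
      apply hperf
      intro x y
      have hx : x ∈ E := by rw [hE]; trivial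
      exact hx y
    have hθB : eigenspace σ (ev θ) ≤ B := by
      intro z hz
      have hzT : z ∈ T := by rw [hTt]; trivial
      obtain ⟨b, hb, w, hw, rfl⟩ := Submodule.mem_sup.1 hzT
      have hw2 : w ∈ eigenspace σ (ev θ) := by
        have h1 : w = (b + w) - b := by abel
        rw [h1]
        exact Submodule.sub_mem _ hz hb.2
      have hdisj := (eigenspaces_iSupIndep σ) (ev θ)
      have hw0 : w = 0 := by
        have := (Submodule.disjoint_def.1 hdisj) w hw2 hw
        exact this
      rw [hw0, add_zero]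
      exact hb.1
    apply ihθ B hBB
    intro q hq hθq
    rcases eq_or_lt_of_le hθq with h | h
    · rw [← h]; exact hθB
    · exact hB' q hq h

/-- **Automorphisms without fixed vectors.** -/
theorem base [FiniteDimensional ℂ L] (σ : L →ₗ[ℂ] L) (hσ : ∀ x y, σ ⁅x, y⁆ = ⁅σ x, σ y⁆)
    (hperf : ∀ B : Submodule ℂ L, (∀ x y : L, ⁅x, y⁆ ∈ B) → B = ⊤)
    (hspan : ⨆ μ, eigenspace σ μ = ⊤) (hone : ∀ x, σ x = x → x = 0)
    (hcirc : ∀ μ, eigenspace σ μ ≠ ⊥ → ‖μ‖ = 1) : ∀ x : L, x = 0 := by
  have hfin : {θ : ℝ | θ ∈ Set.Ioo 0 (2 * Real.pi) ∧ eigenspace σ (ev θ) ≠ ⊥}.Finite := by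
    have h1 : {μ : ℂ | HasEigenvalue σ μ}.Finite := Module.End.finite_hasEigenvalue σ
    refine Set.Finite.of_finite_image (f := ev) (h1.subset ?_) ?_
    · rintro _ ⟨θ, ⟨_, h2⟩, rfl⟩
      exact hasEigenvalue_iff.2 h2
    · intro s hs t ht h
      exact ev_inj hs.1 ht.1 h
  have h := base_aux σ hσ hperf hspan hone hcirc hfin.toFinset (by
    intro θ
    rw [Set.Finite.mem_toFinset]
    rfl) _ (2 * Real.pi) rfl ⊥ (by
      intro x hx y hy
      rw [Submodule.mem_bot] at hx hy ⊢
      rw [hx, zero_lie]) (by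
      intro θ hθ h
      exact absurd hθ.2 (not_lt.2 h))
  intro x
  have hx : x ∈ (⊤ : Submodule ℂ L) := trivial
  rw [← h, Submodule.mem_bot] at hx
  exact hx

end Pool.Agent.J4.H13.TIG
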