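import Pool.Agent.J4.H13.TIG.Stab2

/-!
# Conjugacy of maximal abelian subspaces of the Lie algebra of a compact matrix group
-/

set_option autoImplicit false
set_option linter.unusedSectionVars false

namespace Pool.Agent.J4.H13.TIG

open Module
open scoped ComplexOrder Topology

variable {A : Type} [NormedRing A] [NormedAlgebra ℂ A] [StarRing A] [StarModule ℂ A]
  [FiniteDimensional ℝ A] (T : TrD A)

include T in
/-- **Regular elements.** -/
theorem exists_regular (k : Submodule ℝ A) (hk : IsCLie k) (t : Submodule ℝ A)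
    (ht : IsMaxAb k t) : ∃ X ∈ t, ∀ Z ∈ k, X * Z = Z * X → Z ∈ t := by
  obtain ⟨X, hX, hmin⟩ : ∃ X ∈ t, ∀ Y ∈ t, finrank ℝ (cent k {X}) ≤ finrank ℝ (cent k {Y}) := by
    let P : ℕ → Prop := fun m => ∃ X ∈ t, finrank ℝ (cent k {X}) = m
    have hP : ∃ m, P m := ⟨_, 0, t.zero_mem, rfl⟩
    classical
    obtain ⟨X, hX, hXm⟩ := Nat.find_spec hP
    refine ⟨X, hX, fun Y hY => ?_⟩
    rw [hXm]
    exact Nat.find_min' hP ⟨Y, hY, rfl⟩
  refine ⟨X, hX, fun Z hZ hXZ => ht.max Z hZ fun Y hY => ?_⟩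
  -- the operator `ad X`
  let a : k →ₗ[ℝ] k :=
    { toFun := fun W => ⟨X * W - W * X, hk.brk X (ht.le hX) W W.2⟩
      map_add' := by
        intro W W'
        apply Subtype.ext
        show X * ((W : A) + W') - ((W : A) + W') * X = (X * W - W * X) + (X * W' - W' * X)
        rw [mul_add, add_mul]
        abel
      map_smul' := by
        intro c W
        apply Subtype.ext
        show X * (c • (W : A)) - (c • (W : A)) * X = c • (X * W - W * X)
        rw [mul_smul_comm, smul_mul_assoc, smul_sub] }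
  have hac : ∀ W : k, ((a W : k) : A) = X * W - W * X := fun _ => rfl
  let f : LinearMap.range a →ₗ[ℝ] k := a.comp (LinearMap.range a).subtype
  have hf : LinearMap.ker f = ⊥ := by
    rw [LinearMap.ker_eq_bot']
    rintro ⟨w, ⟨z, rfl⟩⟩ hw
    have h1 : a (a z) = 0 := hw
    have h2 : ((a z : k) : A) = 0 := by
      apply eq_zero_of_ip T (hk.skew _ (a z).2)
      have h3 : ip T ((a z : k) : A) ((a z : k) : A) =
          -ip T (z : A) (X * ((a z : k) : A) - ((a z : k) : A) * X) := by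
        have h4 : ((a z : k) : A) = -((z : A) * X - X * z) := by
          rw [hac]; abel
        have h5 : ip T (-((z : A) * X - X * z)) ((a z : k) : A) =
            -ip T (z : A) (X * ((a z : k) : A) - ((a z : k) : A) * X) := by
          rw [← neg_one_smul ℝ, ip_smul_left, ip_brk, neg_one_mul]
        rw [← h5, ← h4]
      rw [h3, ← hac, h1]
      simp [ip_zero_right]
    apply Subtype.ext
    exact Subtype.ext h2
  obtain ⟨K, hK, hKa⟩ := LinearMap.exists_antilipschitzWith (𝕜 := ℝ) (E := LinearMap.range a) (F := k) f hf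
  obtain ⟨ε, hε, hε2⟩ : ∃ ε : ℝ, 0 < ε ∧ K * (ε * (2 * ‖Y‖)) < 1 := by
    refine ⟨1 / (K * (2 * ‖Y‖) + 1), by positivity, ?_⟩
    have h1 : (K : ℝ) * (1 / (K * (2 * ‖Y‖) + 1) * (2 * ‖Y‖)) =
        (K * (2 * ‖Y‖)) / (K * (2 * ‖Y‖) + 1) := by ring
    rw [h1, div_lt_one (by positivity)]
    linarith
  have hsub : cent k {X + ε • Y} ≤ cent k {X} ⊓ cent k {Y} := by
    intro V hV
    rw [mem_cent] at hV
    have hV1 := hV.2 _ (Set.mem_singleton _)
    rw [add_mul, mul_add, smul_mul_assoc, mul_smul_comm] at hV1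
    have h1 : X * V - V * X = -(ε • (Y * V - V * Y)) := by
      rw [smul_sub]
      rw [← sub_eq_zero] at hV1 ⊢
      rw [← hV1]
      abel
    have hXY : X * Y = Y * X := ht.ab X hX Y hY
    obtain ⟨w, hw⟩ : ∃ w : k, w = a ⟨V, hV.1⟩ := ⟨_, rfl⟩
    have hwc : (w : A) = X * V - V * X := by rw [hw, hac]
    have h2 : X * (w : A) - w * X = -(ε • (Y * (w : A) - w * Y)) := by
      have h3 : X * (Y * V - V * Y) - (Y * V - V * Y) * X =
          Y * (X * V - V * X) - (X * V - V * X) * Y := by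
        have e1 : X * (Y * V - V * Y) - (Y * V - V * Y) * X =
          (X * Y) * V - X * V * Y - Y * V * X + V * (Y * X) := by noncomm_ring
        have e2 : Y * (X * V - V * X) - (X * V - V * X) * Y =
          (Y * X) * V - Y * V * X - X * V * Y + V * (X * Y) := by noncomm_ring
        rw [e1, e2, hXY]
        abel
      rw [hwc]
      conv_lhs => rw [h1]
      rw [mul_neg, neg_mul, mul_smul_comm, smul_mul_assoc, ← h3, smul_sub]
      abel
    have h4 : ‖w‖ ≤ K * ‖a w‖ := by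
      have h5 := hKa.le_mul_dist (⟨w, ⟨⟨V, hV.1⟩, hw.symm⟩⟩ : LinearMap.range a) 0
      rw [map_zero, dist_zero_right, dist_zero_right] at h5
      exact h5
    have h6 : ‖a w‖ ≤ ε * (2 * ‖Y‖) * ‖w‖ := by
      have h7 : ‖a w‖ = ‖X * (w : A) - w * X‖ := rfl
      rw [h7, h2, norm_neg, norm_smul, Real.norm_of_nonneg hε.le]
      have h8 : ‖Y * (w : A) - w * Y‖ ≤ 2 * ‖Y‖ * ‖w‖ := by
        calc ‖Y * (w : A) - w * Y‖ ≤ ‖Y * (w : A)‖ + ‖(w : A) * Y‖ := norm_sub_le _ _
          _ ≤ ‖Y‖ * ‖(w : A)‖ + ‖(w : A)‖ * ‖Y‖ := add_le_add (norm_mul_le _ _) (norm_mul_le _ _)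
          _ = 2 * ‖Y‖ * ‖w‖ := by
            have : ‖(w : A)‖ = ‖w‖ := rfl
            rw [this]; ring
      calc ε * ‖Y * (w : A) - w * Y‖ ≤ ε * (2 * ‖Y‖ * ‖w‖) :=
            mul_le_mul_of_nonneg_left h8 hε.le
        _ = _ := by ring
    have h9 : ‖w‖ = 0 := by
      by_contra h0
      have h10 : 0 < ‖w‖ := lt_of_le_of_ne (norm_nonneg _) (Ne.symm h0)
      have h11 : ‖w‖ ≤ K * (ε * (2 * ‖Y‖)) * ‖w‖ := by
        calc ‖w‖ ≤ K * ‖a w‖ := h4
          _ ≤ K * (ε * (2 * ‖Y‖) * ‖w‖) := mul_le_mul_of_nonneg_left h6 K.coe_nonneg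
          _ = _ := by ring
      have h12 := mul_lt_mul_of_pos_right hε2 h10
      linarith
    have h13 : X * V - V * X = 0 := by
      rw [← hwc]
      exact congrArg Subtype.val (norm_eq_zero.1 h9)
    have h14 : Y * V - V * Y = 0 := by
      rw [h13] at h1
      have h15 : ε • (Y * V - V * Y) = 0 := by
        rw [← neg_eq_zero, ← h1]
      exact (smul_eq_zero.1 h15).resolve_left hε.ne'
    refine ⟨⟨hV.1, ?_⟩, ⟨hV.1, ?_⟩⟩
    · intro S hS
      rw [Set.mem_singleton_iff.1 hS]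
      exact sub_eq_zero.1 h13
    · intro S hS
      rw [Set.mem_singleton_iff.1 hS]
      exact sub_eq_zero.1 h14
  have h1 : finrank ℝ (cent k {X}) ≤ finrank ℝ ((cent k {X} ⊓ cent k {Y} : Submodule ℝ A)) :=
    (hmin _ (t.add_mem hX (t.smul_mem ε hY))).trans (Submodule.finrank_mono hsub)
  have h2 : cent k {X} ⊓ cent k {Y} = cent k {X} :=
    Submodule.eq_of_le_of_finrank_le inf_le_left h1
  have h3 : Z ∈ cent k {X} := ⟨hZ, fun S hS => by rw [Set.mem_singleton_iff.1 hS]; exact hXZ⟩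
  rw [← h2] at h3
  exact h3.2.2 Y (Set.mem_singleton _)

end Pool.Agent.J4.H13.TIG
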