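import Pool.Agent.J4.H13.TIG.Conj

/-!
# Conjugacy of maximal abelian subspaces of the Lie algebra of a compact group
-/

set_option autoImplicit false
set_option linter.unusedSectionVars false

namespace Pool.Agent.J4.H13.TIG

open Module Pool.Agent.E8helper46.FL NormedSpace
open scoped ComplexOrder Topology

variable {A : Type} [NormedRing A] [NormedAlgebra ℂ A] [StarRing A] [StarModule ℂ A]
  [ContinuousStar A] [CompleteSpace A] [FiniteDimensional ℝ A] (T : TrD A)

/-- the Lie algebra of a closed group of unitary elements is a compact Lie algebra -/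
theorem isCLie_lieAlg (D : Subgroup Aˣ) (hD : IsClosed (D : Set Aˣ))
    (hDu : ∀ u ∈ D, star (u : A) = ((u⁻¹ : Aˣ) : A)) : IsCLie (lieAlg D hD) := by
  refine ⟨fun X hX => ?_, fun X hX Y hY => ?_⟩
  · have h1 : ∀ s : ℝ, exp (s • X) * exp (s • star X) = 1 := by
      intro s
      have h2 := hDu _ (hX s)
      have h3 : exp (s • star X) = ((ex (s • X))⁻¹ : Aˣ).val := by
        rw [← h2, ex_val]
        have h7 := star_exp (s • X)
        rw [star_smul'] at h7
        exact h7.symm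
      rw [h3]
      exact Units.mul_inv (ex (s • X))
    have h3 := (ex_deriv X).mul (ex_deriv (star X))
    have h4 : (fun s : ℝ => exp (s • X) * exp (s • star X)) = fun _ => 1 := funext h1
    have h6 : HasDerivAt (fun s : ℝ => exp (s • X) * exp (s • star X)) 0 0 := by
      rw [h4]; exact hasDerivAt_const _ _
    have h5 := h3.unique h6
    simp only [zero_smul, NormedSpace.exp_zero, one_mul, mul_one] at h5
    exact eq_neg_of_add_eq_zero_right h5
  · apply bracket_mem (lieAlg D hD) (Submodule.closed_of_finiteDimensional _) X Y hY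
    refine Filter.Eventually.of_forall fun t => ?_
    exact conj_mem_lieAlg hY (hX t)

theorem conj_mul_conj (u v : A) (hvu : v * u = 1) (P Q : A) :
    u * P * v * (u * Q * v) = u * (P * Q) * v := by
  calc u * P * v * (u * Q * v) = u * P * (v * u) * Q * v := by simp only [mul_assoc]
    _ = _ := by rw [hvu, mul_one]; simp only [mul_assoc]

theorem conj_conj (u v : A) (huv : u * v = 1) (P : A) : u * (v * P * u) * v = P := by
  calc u * (v * P * u) * v = (u * v) * P * (u * v) := by simp only [mul_assoc]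
    _ = P := by rw [huv, one_mul, mul_one]

include T in
/-- **Conjugacy.** -/
theorem conj_main (D : Subgroup Aˣ) (hD : IsClosed (D : Set Aˣ))
    (hDc : IsCompact (D : Set Aˣ)) (hDu : ∀ u ∈ D, star (u : A) = ((u⁻¹ : Aˣ) : A))
    {t t' : Submodule ℝ A} (ht : IsMaxAb (lieAlg D hD) t) (ht' : IsMaxAb (lieAlg D hD) t') :
    ∃ u ∈ D, (∀ Z ∈ t, (u : A) * Z * ((u⁻¹ : Aˣ) : A) ∈ t') ∧
      ∀ Z ∈ t', ((u⁻¹ : Aˣ) : A) * Z * (u : A) ∈ t := by
  have hk := isCLie_lieAlg D hD hDu
  obtain ⟨X, hX, hXr⟩ := exists_regular T _ hk t ht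
  obtain ⟨X', hX', hXr'⟩ := exists_regular T _ hk t' ht'
  obtain ⟨l, hl⟩ : ∃ l : A →L[ℝ] ℝ, ∀ Z, l Z = ip T Z X' :=
    ⟨LinearMap.toContinuousLinearMap
      { toFun := fun Z => ip T Z X'
        map_add' := fun Z W => ip_add_left T Z W X'
        map_smul' := fun c Z => by rw [ip_smul_left]; rfl }, fun Z => rfl⟩
  have hcont : Continuous fun u : Aˣ => l ((u : A) * X * ((u⁻¹ : Aˣ) : A)) := by
    have h1 : Continuous fun u : Aˣ => (u : A) := Units.continuous_val
    have h2 : Continuous fun u : Aˣ => ((u⁻¹ : Aˣ) : A) := Units.continuous_coe_inv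
    exact l.continuous.comp ((h1.mul continuous_const).mul h2)
  obtain ⟨u, huD, hmax⟩ := hDc.exists_isMaxOn ⟨1, D.one_mem⟩ hcont.continuousOn
  obtain ⟨X0, hX0⟩ : ∃ X0, X0 = (u : A) * X * ((u⁻¹ : Aˣ) : A) := ⟨_, rfl⟩
  have hX0k : X0 ∈ lieAlg D hD := by
    rw [hX0]
    exact conj_mem_lieAlg (ht.le hX) huD
  have hcomm : X0 * X' - X' * X0 = 0 := by
    obtain ⟨Y, hY⟩ : ∃ Y, Y = X0 * X' - X' * X0 := ⟨_, rfl⟩
    have hYk : Y ∈ lieAlg D hD := by rw [hY]; exact hk.brk _ hX0k _ (ht'.le hX')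
    rw [← hY]
    apply eq_zero_of_ip T (hk.skew _ hYk)
    have h1 : HasDerivAt (fun s : ℝ => l (exp (s • Y) * X0 * exp (-(s • Y))))
        (l (Y * X0 - X0 * Y)) 0 := by
      have h2 := conj_deriv Y X0
      exact l.hasFDerivAt.comp_hasDerivAt 0 h2
    have h3 : IsLocalMax (fun s : ℝ => l (exp (s • Y) * X0 * exp (-(s • Y)))) 0 := by
      refine Filter.Eventually.of_forall fun s => ?_
      have h4 : ex (s • Y) * u ∈ D := D.mul_mem (hYk s) huD
      have h5 := hmax h4
      have h6 : ((ex (s • Y) * u : Aˣ) : A) * X * (((ex (s • Y) * u)⁻¹ : Aˣ) : A) =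
          exp (s • Y) * X0 * exp (-(s • Y)) := by
        rw [mul_inv_rev, Units.val_mul, Units.val_mul, ex_val, ex_inv_val, hX0]
        simp only [mul_assoc]
      have h7 : l (exp (s • Y) * X0 * exp (-(s • Y))) ≤ l X0 := by
        rw [← h6, hX0]
        exact h5
      show l (exp (s • Y) * X0 * exp (-(s • Y))) ≤
        l (exp ((0 : ℝ) • Y) * X0 * exp (-((0 : ℝ) • Y)))
      rw [zero_smul, neg_zero, exp_zero, one_mul, mul_one]
      exact h7
    have h4 := h3.hasDerivAt_eq_zero h1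
    rw [hl, ip_brk, ← hY] at h4
    exact h4
  have hX0t : X0 ∈ t' := hXr' X0 hX0k (sub_eq_zero.1 hcomm).symm
  have hcj : ∀ Z ∈ lieAlg D hD, ((u⁻¹ : Aˣ) : A) * Z * (u : A) ∈ lieAlg D hD := by
    intro Z hZ
    have := conj_mem_lieAlg hZ (D.inv_mem huD)
    rwa [inv_inv] at this
  have huv : (u : A) * ((u⁻¹ : Aˣ) : A) = 1 := Units.mul_inv u
  have hvu : ((u⁻¹ : Aˣ) : A) * (u : A) = 1 := Units.inv_mul u
  have hback : ∀ Z ∈ t', ((u⁻¹ : Aˣ) : A) * Z * (u : A) ∈ t := by
    intro Z hZ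
    apply hXr _ (hcj Z (ht'.le hZ))
    have h1 : X0 * Z = Z * X0 := ht'.ab _ hX0t _ hZ
    have h2 : X = ((u⁻¹ : Aˣ) : A) * X0 * (u : A) := by
      rw [hX0, conj_conj _ _ hvu]
    rw [h2, conj_mul_conj _ _ huv, conj_mul_conj _ _ huv, h1]
  refine ⟨u, huD, fun Z hZ => ?_, hback⟩
  apply ht'.max _ (conj_mem_lieAlg (ht.le hZ) huD)
  intro W hW
  have h1 := ht.ab _ (hback W hW) _ hZ
  have h3 : W = (u : A) * (((u⁻¹ : Aˣ) : A) * W * (u : A)) * ((u⁻¹ : Aˣ) : A) :=
    (conj_conj _ _ huv W).symm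
  rw [h3, conj_mul_conj _ _ hvu, conj_mul_conj _ _ hvu, h1]

end Pool.Agent.J4.H13.TIG
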