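import Pool.Agent.J4.H13.TIG.Conj2

/-!
# The normalizer of a maximal torus meets all conjugacy classes
-/

set_option autoImplicit false
set_option linter.unusedSectionVars false

namespace Pool.Agent.J4.H13.TIG

open Module Pool.Agent.E8helper46.FL NormedSpace
open scoped ComplexOrder Topology

variable {A : Type} [NormedRing A] [NormedAlgebra ℂ A] [StarRing A] [StarModule ℂ A]
  [ContinuousStar A] [CompleteSpace A] [FiniteDimensional ℝ A] (T : TrD A)

variable {G : Type} [Group G] [TopologicalSpace G] [IsTopologicalGroup G]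

/-- subgroups of a connected group which contain all elements mapped to exponentials -/
theorem all_of_exp (G0 : Subgroup G) (hconn : IsConnected (G0 : Set G)) (φ : G →* Aˣ)
    (hφ : Continuous φ) (hD : IsClosed ((G0.map φ : Subgroup Aˣ) : Set Aˣ)) (Q : Subgroup G)
    (hQ : ∀ x ∈ G0, ∀ X ∈ lieAlg (G0.map φ) hD, φ x = ex X → x ∈ Q) : G0 ≤ Q := by
  have h1 := near_one (G0.map φ) hD
  have h2 : ∀ᶠ x : G in 𝓝 1, φ x ∈ G0.map φ → ∃ X ∈ lieAlg (G0.map φ) hD, φ x = ex X := by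
    have h3 := hφ.tendsto 1
    rw [map_one] at h3
    exact h3.eventually h1
  have hcs : ConnectedSpace G0 := isConnected_iff_connectedSpace.1 hconn
  have h4 : ∀ᶠ x : G0 in 𝓝 1, (x : G) ∈ Q := by
    have h5 : Filter.Tendsto (fun x : G0 => (x : G)) (𝓝 1) (𝓝 1) :=
      (continuous_subtype_val (p := fun x => x ∈ G0)).tendsto 1
    filter_upwards [h5.eventually h2] with x hx
    obtain ⟨X, hX, hxX⟩ := hx ⟨x, x.2, rfl⟩
    exact hQ x x.2 X hX hxX
  let Q0 : Subgroup G0 := Q.subgroupOf G0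
  have h6 : (Q0 : Set G0) ∈ 𝓝 (1 : G0) := h4
  have h7 : IsOpen (Q0 : Set G0) := Subgroup.isOpen_of_mem_nhds Q0 h6
  have h8 : IsClosed (Q0 : Set G0) := Subgroup.isClosed_of_isOpen Q0 h7
  have h9 : (Q0 : Set G0) = Set.univ := IsClopen.eq_univ ⟨h8, h7⟩ ⟨1, Q0.one_mem⟩
  intro x hx
  have h10 : (⟨x, hx⟩ : G0) ∈ (Q0 : Set G0) := by rw [h9]; trivial
  exact h10

include T in
/-- **Closed proper subgroups meeting all conjugacy classes.** -/
theorem exists_subgroup (G0 : Subgroup G) [G0.Normal] (hconn : IsConnected (G0 : Set G))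
    (hcomp : IsCompact (G0 : Set G)) (φ : G →* Aˣ) (hφ : Continuous φ)
    (hu : ∀ g, star (φ g : A) = (((φ g)⁻¹ : Aˣ) : A)) (a b : G) (ha : a ∈ G0) (hb : b ∈ G0)
    (hab : φ (a * b) ≠ φ (b * a)) :
    ∃ H : Subgroup G, IsClosed (H : Set G) ∧ H ≠ ⊤ ∧ ∀ g, ∃ x, x * g * x⁻¹ ∈ H := by
  have hDc : IsCompact ((G0.map φ : Subgroup Aˣ) : Set Aˣ) := by
    rw [Subgroup.coe_map]
    exact hcomp.image hφ
  have hD : IsClosed ((G0.map φ : Subgroup Aˣ) : Set Aˣ) := hDc.isClosed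
  have hDu : ∀ u ∈ G0.map φ, star (u : A) = ((u⁻¹ : Aˣ) : A) := by
    rintro _ ⟨x, _, rfl⟩
    exact hu x
  have hk := isCLie_lieAlg _ hD hDu
  obtain ⟨t, ht⟩ := exists_maxAb (lieAlg (G0.map φ) hD)
  -- the normalizer
  have hcc : ∀ (u w : Aˣ) (P : A), ((u * w : Aˣ) : A) * P * (((u * w)⁻¹ : Aˣ) : A) =
      (u : A) * ((w : A) * P * ((w⁻¹ : Aˣ) : A)) * ((u⁻¹ : Aˣ) : A) := by
    intro u w P
    rw [mul_inv_rev, Units.val_mul, Units.val_mul]
    simp only [mul_assoc]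
  let H : Subgroup G :=
    { carrier := {g | (∀ Z ∈ t, (φ g : A) * Z * (((φ g)⁻¹ : Aˣ) : A) ∈ t) ∧
        ∀ Z ∈ t, (((φ g)⁻¹ : Aˣ) : A) * Z * (φ g : A) ∈ t}
      one_mem' := by
        refine ⟨fun Z hZ => ?_, fun Z hZ => ?_⟩
        · simpa using hZ
        · simpa using hZ
      mul_mem' := by
        rintro g h ⟨hg1, hg2⟩ ⟨hh1, hh2⟩
        refine ⟨fun Z hZ => ?_, fun Z hZ => ?_⟩
        · rw [map_mul, hcc]
          exact hg1 _ (hh1 Z hZ)
        · have e1 : (((φ (g * h))⁻¹ : Aˣ) : A) * Z * ((φ (g * h) : Aˣ) : A) =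
              (((φ h)⁻¹ : Aˣ) : A) * ((((φ g)⁻¹ : Aˣ) : A) * Z * (φ g : A)) * (φ h : A) := by
            rw [map_mul, mul_inv_rev, Units.val_mul, Units.val_mul]
            simp only [mul_assoc]
          rw [e1]
          exact hh2 _ (hg2 Z hZ)
      inv_mem' := by
        rintro g ⟨hg1, hg2⟩
        refine ⟨fun Z hZ => ?_, fun Z hZ => ?_⟩
        · rw [map_inv, inv_inv]
          exact hg2 Z hZ
        · rw [map_inv, inv_inv]
          exact hg1 Z hZ }
  have hHm : ∀ g, g ∈ H ↔ (∀ Z ∈ t, (φ g : A) * Z * (((φ g)⁻¹ : Aˣ) : A) ∈ t) ∧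
        ∀ Z ∈ t, (((φ g)⁻¹ : Aˣ) : A) * Z * (φ g : A) ∈ t := fun g => Iff.rfl
  have htc : IsClosed (t : Set A) := Submodule.closed_of_finiteDimensional _
  have hv : Continuous fun g : G => (φ g : A) := Units.continuous_val.comp hφ
  have hi : Continuous fun g : G => (((φ g)⁻¹ : Aˣ) : A) := Units.continuous_coe_inv.comp hφ
  have hHc : IsClosed (H : Set G) := by
    have e1 : (H : Set G) = (⋂ Z ∈ t, {g | (φ g : A) * Z * (((φ g)⁻¹ : Aˣ) : A) ∈ (t : Set A)}) ∩
        ⋂ Z ∈ t, {g | (((φ g)⁻¹ : Aˣ) : A) * Z * (φ g : A) ∈ (t : Set A)} := by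
      ext g
      simp only [SetLike.mem_coe, hHm, Set.mem_inter_iff, Set.mem_iInter, Set.mem_ofPred_eq]
    rw [e1]
    refine IsClosed.inter ?_ ?_
    · exact isClosed_biInter fun Z _ => htc.preimage ((hv.mul continuous_const).mul hi)
    · exact isClosed_biInter fun Z _ => htc.preimage ((hi.mul continuous_const).mul hv)
  refine ⟨H, hHc, ?_, ?_⟩
  · -- `H` is proper
    intro hH
    have hall : ∀ g, g ∈ H := fun g => by rw [hH]; trivial
    have h1 : ∀ X ∈ lieAlg (G0.map φ) hD, ∀ Z ∈ t, X * Z = Z * X := by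
      intro X hX Z hZ
      have h2 : X * Z - Z * X ∈ t := by
        apply bracket_mem t htc X Z hZ
        refine Filter.Eventually.of_forall fun s => ?_
        obtain ⟨x, _, hx⟩ := hX s
        have h3 := (hHm x).1 (hall x)
        have h4 := h3.1 Z hZ
        rw [hx] at h4
        exact h4
      apply sub_eq_zero.1
      apply eq_zero_of_ip T (hk.skew _ (ht.le h2))
      rw [ip_brk, ht.ab Z hZ _ h2, sub_self, ip_zero_right]
    have h2 : ∀ X ∈ lieAlg (G0.map φ) hD, ∀ Y ∈ lieAlg (G0.map φ) hD, X * Y = Y * X := by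
      intro X hX Y hY
      have hXt : X ∈ t := ht.max X hX fun Z hZ => (h1 X hX Z hZ).symm
      exact (h1 Y hY X hXt).symm
    -- all exponentials commute with `φ(G0)`
    have hcomm : ∀ X ∈ lieAlg (G0.map φ) hD, ∀ Y ∈ lieAlg (G0.map φ) hD,
        ex X * ex Y = ex Y * ex X := by
      intro X hX Y hY
      have hc : Commute X Y := h2 X hX Y hY
      rw [← ex_add hc, ← ex_add hc.symm, add_comm]
    have h3 : ∀ X ∈ lieAlg (G0.map φ) hD, ∀ x ∈ G0, φ x * ex X = ex X * φ x := by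
      intro X hX
      let Q : Subgroup G := (Subgroup.centralizer {ex X}).comap φ
      have hQ : G0 ≤ Q := by
        apply all_of_exp G0 hconn φ hφ hD Q
        intro x _ Y hY hxY
        rw [Subgroup.mem_comap, hxY, Subgroup.mem_centralizer_singleton_iff]
        exact hcomm Y hY X hX
      intro x hx
      have h4 := hQ hx
      rw [Subgroup.mem_comap, Subgroup.mem_centralizer_singleton_iff] at h4
      exact h4
    have h5 : ∀ y ∈ G0, ∀ x ∈ G0, φ x * φ y = φ y * φ x := by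
      intro y hy
      let Q : Subgroup G := (Subgroup.centralizer {φ y}).comap φ
      have hQ : G0 ≤ Q := by
        apply all_of_exp G0 hconn φ hφ hD Q
        intro x _ Y hY hxY
        rw [Subgroup.mem_comap, hxY, Subgroup.mem_centralizer_singleton_iff]
        exact (h3 Y hY y hy).symm
      intro x hx
      have h4 := hQ hx
      rw [Subgroup.mem_comap, Subgroup.mem_centralizer_singleton_iff] at h4
      exact h4
    apply hab
    rw [map_mul, map_mul]
    exact h5 b hb a ha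
  · -- `H` meets the conjugacy class of `g`
    intro g
    have hnorm : ∀ X ∈ lieAlg (G0.map φ) hD,
        (φ g : A) * X * (((φ g)⁻¹ : Aˣ) : A) ∈ lieAlg (G0.map φ) hD := by
      intro X hX s
      obtain ⟨x, hx, hxs⟩ := hX s
      refine ⟨g * x * g⁻¹, Subgroup.Normal.conj_mem inferInstance x hx g, ?_⟩
      have h1 : s • ((φ g : A) * X * (((φ g)⁻¹ : Aˣ) : A)) =
          (φ g : A) * (s • X) * (((φ g)⁻¹ : Aˣ) : A) := by
        rw [mul_smul_comm, smul_mul_assoc]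
      rw [h1, ex_conj, ← hxs, map_mul, map_mul, map_inv]
    have hfd : FiniteDimensional ℂ A := FiniteDimensional.right ℝ ℂ A
    obtain ⟨t', ht', hst⟩ := exists_stable T _ hk (φ g : A) (((φ g)⁻¹ : Aˣ) : A) (hu g)
      (Units.inv_mul _) hnorm
    have hnorm' : ∀ X ∈ lieAlg (G0.map φ) hD,
        (((φ g)⁻¹ : Aˣ) : A) * X * (φ g : A) ∈ lieAlg (G0.map φ) hD := by
      intro X hX s
      obtain ⟨x, hx, hxs⟩ := hX s
      refine ⟨g⁻¹ * x * g, ?_, ?_⟩
      · have := Subgroup.Normal.conj_mem (inferInstance : G0.Normal) x hx g⁻¹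
        rwa [inv_inv] at this
      have h1 : s • ((((φ g)⁻¹ : Aˣ) : A) * X * (φ g : A)) =
          (((φ g)⁻¹ : Aˣ) : A) * (s • X) * ((((φ g)⁻¹)⁻¹ : Aˣ) : A) := by
        rw [mul_smul_comm, smul_mul_assoc, inv_inv]
      rw [h1, ex_conj, ← hxs, map_mul, map_mul, map_inv, inv_inv]
    have hst' : ∀ X ∈ t', (((φ g)⁻¹ : Aˣ) : A) * X * (φ g : A) ∈ t' := by
      intro X hX
      apply ht'.max _ (hnorm' X (ht'.le hX))
      intro W hW
      have h1 := ht'.ab _ (hst W hW) X hX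
      have h2 : W = (((φ g)⁻¹ : Aˣ) : A) * ((φ g : A) * W * (((φ g)⁻¹ : Aˣ) : A)) * (φ g : A) :=
        (conj_conj _ _ (Units.inv_mul _) W).symm
      rw [h2, conj_mul_conj _ _ (Units.mul_inv _), conj_mul_conj _ _ (Units.mul_inv _), h1]
    obtain ⟨_, ⟨x, hx, rfl⟩, h1, h2⟩ := conj_main T _ hD hDc hDu ht ht'
    refine ⟨x⁻¹, ?_⟩
    rw [hHm]
    have e1 : ∀ P : A, ((φ (x⁻¹ * g * x⁻¹⁻¹) : Aˣ) : A) * P * (((φ (x⁻¹ * g * x⁻¹⁻¹))⁻¹ : Aˣ) : A) =
        (((φ x)⁻¹ : Aˣ) : A) * ((φ g : A) * ((φ x : A) * P * (((φ x)⁻¹ : Aˣ) : A)) *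
          (((φ g)⁻¹ : Aˣ) : A)) * (φ x : A) := by
      intro P
      rw [inv_inv, map_mul, map_mul, map_inv, mul_inv_rev, mul_inv_rev, inv_inv]
      simp only [Units.val_mul, mul_assoc]
    have e2 : ∀ P : A, (((φ (x⁻¹ * g * x⁻¹⁻¹))⁻¹ : Aˣ) : A) * P * ((φ (x⁻¹ * g * x⁻¹⁻¹) : Aˣ) : A) =
        (((φ x)⁻¹ : Aˣ) : A) * ((((φ g)⁻¹ : Aˣ) : A) * ((φ x : A) * P * (((φ x)⁻¹ : Aˣ) : A)) *
          (φ g : A)) * (φ x : A) := by
      intro P
      rw [inv_inv, map_mul, map_mul, map_inv, mul_inv_rev, mul_inv_rev, inv_inv]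
      simp only [Units.val_mul, mul_assoc]
    refine ⟨fun Z hZ => ?_, fun Z hZ => ?_⟩
    · rw [e1]
      exact h2 _ (hst _ (h1 Z hZ))
    · rw [e2]
      exact h2 _ (hst' _ (h1 Z hZ))

end Pool.Agent.J4.H13.TIG
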