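import Mathlib

/-!
# Groups whose identity component is abelian are topologically invariably generated
-/

set_option autoImplicit false

namespace Pool.Agent.J4.H13.TIG

open MulAction

/-- Jordan: no proper subgroup of a finite group meets all conjugacy classes. -/
theorem jordan {Q : Type} [Group Q] [Finite Q] (R : Subgroup Q)
    (h : ∀ g : Q, ∃ x, x * g * x⁻¹ ∈ R) : R = ⊤ := by
  classical
  have : Fintype Q := Fintype.ofFinite Q
  have hX : Fintype (Q ⧸ R) := Fintype.ofFinite _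
  have hΩ : Fintype (Quotient (orbitRel Q (Q ⧸ R))) := Fintype.ofFinite _
  have hsum := sum_card_fixedBy_eq_card_orbits_mul_card_group Q (Q ⧸ R)
  have hsub : Subsingleton (Quotient (orbitRel Q (Q ⧸ R))) :=
    (pretransitive_iff_subsingleton_quotient Q (Q ⧸ R)).1 inferInstance
  have hone : Fintype.card (Quotient (orbitRel Q (Q ⧸ R))) = 1 := by
    apply le_antisymm
    · exact Fintype.card_le_one_iff_subsingleton.2 hsub
    · exact Fintype.card_pos_iff.2 ⟨Quotient.mk _ (QuotientGroup.mk 1)⟩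
  rw [hone, one_mul] at hsum
  have hfix : ∀ g : Q, 1 ≤ Fintype.card (fixedBy (Q ⧸ R) g) := by
    intro g
    obtain ⟨x, hx⟩ := h g
    refine Fintype.card_pos_iff.2 ⟨⟨QuotientGroup.mk x⁻¹, ?_⟩⟩
    rw [mem_fixedBy]
    show (QuotientGroup.mk (g * x⁻¹) : Q ⧸ R) = QuotientGroup.mk x⁻¹
    rw [eq_comm, QuotientGroup.eq, inv_inv, ← mul_assoc]
    exact hx
  have h1 : Fintype.card (fixedBy (Q ⧸ R) (1 : Q)) = Fintype.card (Q ⧸ R) := by
    apply Fintype.card_congr
    refine ⟨fun y => y.1, fun y => ⟨y, by rw [mem_fixedBy, one_smul]⟩, fun _ => rfl, fun _ => rfl⟩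
  have h2 : ∑ g ∈ (Finset.univ.erase (1 : Q)), 1 ≤
      ∑ g ∈ (Finset.univ.erase (1 : Q)), Fintype.card (fixedBy (Q ⧸ R) g) :=
    Finset.sum_le_sum fun g _ => hfix g
  have h3 := Finset.add_sum_erase Finset.univ (fun g : Q => Fintype.card (fixedBy (Q ⧸ R) g))
    (Finset.mem_univ 1)

  rw [Finset.sum_const, smul_eq_mul, mul_one, Finset.card_erase_of_mem (Finset.mem_univ _),
    Finset.card_univ] at h2
  rw [hsum, h1] at h3
  have h4 : 1 ≤ Fintype.card Q := Fintype.card_pos_iff.2 ⟨1⟩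
  have h5 : Fintype.card (Q ⧸ R) ≤ 1 := by omega
  have h6 : Subsingleton (Q ⧸ R) := Fintype.card_le_one_iff_subsingleton.1 h5
  rw [eq_top_iff]
  intro g _
  have h7 : (QuotientGroup.mk 1 : Q ⧸ R) = QuotientGroup.mk g := Subsingleton.elim _ _
  rw [QuotientGroup.eq, inv_one, one_mul] at h7
  exact h7

theorem finiteIndex_top {K : Type} [Group K] (N : Subgroup K) [N.FiniteIndex]
    (h : ∀ g : K, ∃ x, x * g * x⁻¹ ∈ N) : N = ⊤ := by
  have h1 : N.map (QuotientGroup.mk' N.normalCore) = ⊤ := by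
    apply jordan
    intro g
    obtain ⟨g, rfl⟩ := QuotientGroup.mk_surjective g
    obtain ⟨x, hx⟩ := h g
    exact ⟨QuotientGroup.mk x, ⟨_, hx, rfl⟩⟩
  rw [eq_top_iff]
  intro g _
  have h2 : (QuotientGroup.mk g : K ⧸ N.normalCore) ∈ N.map (QuotientGroup.mk' N.normalCore) := by
    rw [h1]; trivial
  obtain ⟨y, hy, hyg⟩ := h2
  have h3 : y⁻¹ * g ∈ N.normalCore := QuotientGroup.eq.1 hyg
  have h4 := N.normalCore_le h3
  have h5 := N.mul_mem hy h4
  rwa [mul_inv_cancel_left] at h5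

theorem profinite_top {K : Type} [Group K] [TopologicalSpace K] [IsTopologicalGroup K]
    [CompactSpace K] [TotallyDisconnectedSpace K] (P : Subgroup K) (hP : IsClosed (P : Set K))
    (h : ∀ g : K, ∃ x, x * g * x⁻¹ ∈ P) : P = ⊤ := by
  have h1 := ProfiniteGrp.closedSubgroup_eq_sInf_open (⟨P, hP⟩ : ClosedSubgroup K)
  have h2 : P = sInf {N : Subgroup K | IsOpen (N : Set K) ∧ P ≤ N} := h1
  rw [h2, sInf_eq_top]
  rintro N ⟨hN, hPN⟩
  have hfi : N.FiniteIndex := by
    have : Finite (K ⧸ N) := Subgroup.quotient_finite_of_isOpen N hN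
    exact Subgroup.finiteIndex_of_finite_quotient
  apply finiteIndex_top N
  intro g
  obtain ⟨x, hx⟩ := h g
  exact ⟨x, hPN hx⟩

/-- A closed subgroup which meets all conjugacy classes is the whole group when the identity
component is abelian. -/
theorem if_part {G : Type} [Group G] [TopologicalSpace G] [IsTopologicalGroup G] [CompactSpace G]
    (N : Subgroup G) [N.Normal] (hNc : IsClosed (N : Set G))
    (hab : ∀ a ∈ N, ∀ b ∈ N, a * b = b * a) [TotallyDisconnectedSpace (G ⧸ N)]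
    (P : Subgroup G) (hP : IsClosed (P : Set G)) (h : ∀ g : G, ∃ x, x * g * x⁻¹ ∈ P) : P = ⊤ := by
  have hT3 : T3Space (G ⧸ N) := inferInstance
  have h1 : P.map (QuotientGroup.mk' N) = ⊤ := by
    apply profinite_top
    · rw [Subgroup.coe_map]
      exact (hP.isCompact.image QuotientGroup.continuous_mk).isClosed
    · intro g
      obtain ⟨g, rfl⟩ := QuotientGroup.mk_surjective g
      obtain ⟨x, hx⟩ := h g
      exact ⟨QuotientGroup.mk x, ⟨_, hx, rfl⟩⟩
  have h2 : ∀ g : G, ∃ p ∈ P, ∃ y ∈ N, g = p * y := by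
    intro g
    have h3 : (QuotientGroup.mk g : G ⧸ N) ∈ P.map (QuotientGroup.mk' N) := by
      rw [h1]; trivial
    obtain ⟨p, hp, hpg⟩ := h3
    exact ⟨p, hp, p⁻¹ * g, QuotientGroup.eq.1 hpg, by group⟩
  have hnorm : ∀ g : G, ∀ a ∈ P ⊓ N, g * a * g⁻¹ ∈ P ⊓ N := by
    rintro g a ⟨haP, haN⟩
    obtain ⟨p, hp, y, hy, rfl⟩ := h2 g
    have e1 : p * y * a * (p * y)⁻¹ = p * a * p⁻¹ := by
      have e2 : y * a = a * y := hab y hy a haN
      calc p * y * a * (p * y)⁻¹ = p * (y * a) * y⁻¹ * p⁻¹ := by group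
        _ = p * a * p⁻¹ := by rw [e2]; group
    rw [e1]
    exact ⟨P.mul_mem (P.mul_mem hp haP) (P.inv_mem hp), Subgroup.Normal.conj_mem inferInstance a haN p⟩
  have hNP : N ≤ P := by
    intro y hy
    obtain ⟨x, hx⟩ := h y
    have h3 : x * y * x⁻¹ ∈ P ⊓ N := ⟨hx, Subgroup.Normal.conj_mem inferInstance y hy x⟩
    have h4 := hnorm x⁻¹ _ h3
    have h5 : x⁻¹ * (x * y * x⁻¹) * x⁻¹⁻¹ = y := by group
    rw [h5] at h4
    exact h4.1
  rw [eq_top_iff]
  intro g _
  obtain ⟨p, hp, y, hy, rfl⟩ := h2 g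
  exact P.mul_mem hp (hNP hy)

/-- the quotient by the identity component is totally disconnected -/
theorem quot_totDisc {G : Type} [Group G] [TopologicalSpace G] [IsTopologicalGroup G]
    (N : Subgroup G) (hN : (N : Set G) = connectedComponent (1 : G)) :
    TotallyDisconnectedSpace (G ⧸ N) := by
  have hfib0 : ∀ g : G, (QuotientGroup.mk : G → G ⧸ N) ⁻¹' {QuotientGroup.mk g} =
      (fun y => g * y) '' (N : Set G) := by
    intro g
    ext z
    rw [Set.mem_preimage, Set.mem_singleton_iff, eq_comm, QuotientGroup.eq]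
    constructor
    · intro hz
      exact ⟨g⁻¹ * z, hz, by simp⟩
    · rintro ⟨y, hy, rfl⟩
      simpa using hy
  have hNconn : IsConnected (N : Set G) := by rw [hN]; exact isConnected_connectedComponent
  have hfib : ∀ y : G ⧸ N, IsConnected ((QuotientGroup.mk : G → G ⧸ N) ⁻¹' {y}) := by
    intro y
    obtain ⟨g, rfl⟩ := QuotientGroup.mk_surjective y
    rw [hfib0]
    exact hNconn.image _ (continuous_const.mul continuous_id).continuousOn
  have hco : Topology.IsCoinducing (QuotientGroup.mk : G → G ⧸ N) :=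
    (QuotientGroup.isQuotientMap_mk N).isCoinducing
  rw [totallyDisconnectedSpace_iff_connectedComponent_singleton]
  intro y
  obtain ⟨g, rfl⟩ := QuotientGroup.mk_surjective y
  have h1 := hco.preimage_connectedComponent hfib g
  have h2 : connectedComponent g ⊆ (fun y => g * y) '' (N : Set G) := by
    intro z hz
    refine ⟨g⁻¹ * z, ?_, by simp⟩
    rw [hN]
    have h3 : Continuous fun w : G => g⁻¹ * w := continuous_const.mul continuous_id
    have h4 := h3.image_connectedComponent_subset g ⟨z, hz, rfl⟩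
    rwa [inv_mul_cancel] at h4
  apply Set.eq_singleton_iff_unique_mem.2
  refine ⟨mem_connectedComponent, fun z hz => ?_⟩
  obtain ⟨w, rfl⟩ := QuotientGroup.mk_surjective z
  have h3 : w ∈ connectedComponent g := by
    rw [← h1]; exact hz
  have h4 := h2 h3
  rw [← hfib0] at h4
  exact h4

end Pool.Agent.J4.H13.TIG
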