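import Pool.Agent.J4.H13.TIG.Grp
import Pool.Agent.J4.H13.TIG.Prof
import Pool.Agent.Y842.CX.Sep

/-!
# Topologically invariably generated compact groups
-/

set_option autoImplicit false

namespace Pool.Agent.J4.H13.TIG

open Matrix
open scoped ComplexOrder

/-- the algebra of operators of a Euclidean space -/
abbrev Op (n : ℕ) := EuclideanSpace ℂ (Fin n) →L[ℂ] EuclideanSpace ℂ (Fin n)

/-- the trace of operators -/
noncomputable def opTr (n : ℕ) : TrD (Op n) where
  τ := (Matrix.traceLinearMap (Fin n) ℂ ℂ).comp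
    (toEuclideanCLM (n := Fin n) (𝕜 := ℂ)).symm.toAlgEquiv.toLinearMap
  comm x y := by
    show trace ((toEuclideanCLM (n := Fin n) (𝕜 := ℂ)).symm (x * y)) =
      trace ((toEuclideanCLM (n := Fin n) (𝕜 := ℂ)).symm (y * x))
    rw [map_mul, map_mul, Matrix.trace_mul_comm]
  pos x h := by
    obtain ⟨M, rfl⟩ := (toEuclideanCLM (n := Fin n) (𝕜 := ℂ)).surjective x
    have h1 : (trace ((toEuclideanCLM (n := Fin n) (𝕜 := ℂ)).symm
      (star (toEuclideanCLM (n := Fin n) (𝕜 := ℂ) M) * toEuclideanCLM (n := Fin n) (𝕜 := ℂ) M))).re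
        = 0 := h
    rw [← map_star, ← map_mul, StarAlgEquiv.symm_apply_apply] at h1
    have h2 : trace (Mᴴ * M) = 0 := by
      have h3 : star (trace (Mᴴ * M)) = trace (Mᴴ * M) := by
        rw [← trace_conjTranspose, conjTranspose_mul, conjTranspose_conjTranspose]
      obtain ⟨r, hr⟩ := Complex.conj_eq_iff_real.1 h3
      have h4 : (trace (Mᴴ * M)).re = 0 := h1
      rw [hr] at h4 ⊢
      rw [Complex.ofReal_re] at h4
      rw [h4, Complex.ofReal_zero]
    rw [Matrix.trace_conjTranspose_mul_self_eq_zero_iff.1 h2, map_zero]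

theorem only_if {G : Type} [Group G] [TopologicalSpace G] [IsTopologicalGroup G] [CompactSpace G]
    [T2Space G] (N : Subgroup G) [N.Normal] (hN : IsConnected (N : Set G))
    (hNc : IsClosed (N : Set G)) (a b : G) (ha : a ∈ N) (hb : b ∈ N) (hab : a * b ≠ b * a) :
    ∃ H : Subgroup G, IsClosed (H : Set G) ∧ H ≠ ⊤ ∧ ∀ g, ∃ x, x * g * x⁻¹ ∈ H := by
  obtain ⟨r, ρ, hρ, hne⟩ := Pool.Agent.Y842.CX.separated_of_compact G (a * b) (b * a) hab
  let e := toEuclideanCLM (n := Fin r) (𝕜 := ℂ)
  let φ : G →* (Op r)ˣ :=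
    (Units.map (e.toAlgEquiv : Matrix (Fin r) (Fin r) ℂ →* Op r)).comp
      ((Unitary.toUnits (R := Matrix (Fin r) (Fin r) ℂ)).comp ρ)
  have hφv : ∀ g, ((φ g : (Op r)ˣ) : Op r) = e (ρ g : Matrix (Fin r) (Fin r) ℂ) := fun g => rfl
  have hφi : ∀ g, (((φ g)⁻¹ : (Op r)ˣ) : Op r) = e (star (ρ g : Matrix (Fin r) (Fin r) ℂ)) :=
    fun g => rfl
  have hec : Continuous (e : Matrix (Fin r) (Fin r) ℂ → Op r) :=
    LinearMap.continuous_of_finiteDimensional (e.toAlgEquiv.toLinearMap)
  have hρc : Continuous fun g => (ρ g : Matrix (Fin r) (Fin r) ℂ) := continuous_subtype_val.comp hρ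
  have hφ : Continuous φ := by
    rw [Units.continuous_iff]
    refine ⟨?_, ?_⟩
    · exact hec.comp hρc
    · exact hec.comp (continuous_star.comp hρc)
  apply exists_subgroup (opTr r) N hN hNc.isCompact φ hφ ?_ a b ha hb ?_
  · intro g
    rw [hφv, hφi, map_star]
  · intro h
    apply hne
    have h1 := congrArg (fun u : (Op r)ˣ => (u : Op r)) h
    simp only [hφv] at h1
    exact Subtype.ext (e.injective h1)

theorem main (G : Type) [Group G] [TopologicalSpace G] [IsTopologicalGroup G] [CompactSpace G]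
      [T2Space G] :
      (∀ f : G → G,
          (Subgroup.closure (Set.range (fun x : G => f x * x * (f x)⁻¹))).topologicalClosure = ⊤) ↔
        ∃ N : Subgroup G, N.Normal ∧ IsClosed (N : Set G) ∧ IsConnected (N : Set G) ∧
          (∀ a ∈ N, ∀ b ∈ N, a * b = b * a) ∧ TotallyDisconnectedSpace (G ⧸ N) := by
  constructor
  · intro h
    obtain ⟨N, hN⟩ : ∃ N : Subgroup G, (N : Set G) = connectedComponent (1 : G) :=
      ⟨Subgroup.connectedComponentOfOne G, rfl⟩
    have hnor : N.Normal := by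
      refine ⟨fun y hy g => ?_⟩
      have h1 : Continuous fun w : G => g * w * g⁻¹ := by fun_prop
      have h2 : y ∈ connectedComponent (1 : G) := by rw [← hN]; exact hy
      have h3 := h1.image_connectedComponent_subset 1 ⟨y, h2, rfl⟩
      simp only [mul_one, mul_inv_cancel] at h3
      rw [← hN] at h3
      exact h3
    have hcl : IsClosed (N : Set G) := by rw [hN]; exact isClosed_connectedComponent
    have hco : IsConnected (N : Set G) := by rw [hN]; exact isConnected_connectedComponent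
    refine ⟨N, hnor, hcl, hco, ?_, quot_totDisc N hN⟩
    intro a ha b hb
    by_contra hab
    obtain ⟨H, hHc, hHt, hHm⟩ := only_if N hco hcl a b ha hb hab
    choose f hf using hHm
    apply hHt
    have h1 := h f
    rw [eq_top_iff, ← h1]
    apply Subgroup.topologicalClosure_minimal _ _ hHc
    rw [Subgroup.closure_le]
    rintro _ ⟨x, rfl⟩
    exact hf x
  · rintro ⟨N, hnor, hcl, _, hab, htd⟩ f
    apply if_part N hcl hab _ (Subgroup.isClosed_topologicalClosure _)
    intro g
    exact ⟨f g, Subgroup.le_topologicalClosure _ (Subgroup.subset_closure ⟨g, rfl⟩)⟩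

end Pool.Agent.J4.H13.TIG
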