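import Pool.Agent.E8helper46.FL.ExpLie
import Pool.Agent.J4.H13.TIG.Base

/-!
# Compact Lie algebras in finite-dimensional algebras with an involution and a faithful trace
-/

set_option autoImplicit false
set_option linter.unusedSectionVars false

namespace Pool.Agent.J4.H13.TIG

open Module Module.End
open scoped ComplexOrder

/-- A faithful trace on an algebra with involution. -/
structure TrD (A : Type) [Ring A] [Algebra ℂ A] [StarRing A] where
  τ : A →ₗ[ℂ] ℂ
  comm : ∀ x y, τ (x * y) = τ (y * x)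
  pos : ∀ x, (τ (star x * x)).re = 0 → x = 0

variable {A : Type} [Ring A] [Algebra ℂ A] [StarRing A] [StarModule ℂ A] (T : TrD A)

omit [StarRing A] [StarModule ℂ A] in
theorem coe_smul' (c : ℝ) (x : A) : (c : ℂ) • x = c • x := by
  have h : (c : ℂ) = c • (1 : ℂ) := by simp
  rw [h, smul_assoc, one_smul]

theorem star_smul' (c : ℝ) (x : A) : star (c • x) = c • star x := by
  rw [← coe_smul', star_smul, ← coe_smul', Complex.star_def, Complex.conj_ofReal]

/-- the invariant bilinear form `-Re tr (X Y)` -/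
noncomputable def ip (X Y : A) : ℝ := -(T.τ (X * Y)).re

theorem ip_comm (X Y : A) : ip T X Y = ip T Y X := by
  unfold ip
  rw [T.comm]

theorem ip_add_left (X Y Z : A) : ip T (X + Y) Z = ip T X Z + ip T Y Z := by
  unfold ip
  rw [add_mul, map_add, Complex.add_re]
  ring

theorem ip_smul_left (c : ℝ) (X Z : A) : ip T (c • X) Z = c * ip T X Z := by
  unfold ip
  rw [← coe_smul', smul_mul_assoc, map_smul, smul_eq_mul, Complex.re_ofReal_mul]
  ring

theorem ip_zero_left (Z : A) : ip T 0 Z = 0 := by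
  simp [ip]

theorem ip_zero_right (Z : A) : ip T Z 0 = 0 := by
  simp [ip]

/-- invariance of the form -/
theorem ip_brk (X Y Z : A) : ip T (X * Y - Y * X) Z = ip T X (Y * Z - Z * Y) := by
  unfold ip
  rw [sub_mul, mul_sub, map_sub, map_sub, Complex.sub_re, Complex.sub_re]
  have h1 : T.τ (Y * X * Z) = T.τ (X * (Z * Y)) := by
    rw [mul_assoc, T.comm, mul_assoc]
  rw [h1, mul_assoc]

theorem eq_zero_of_ip {X : A} (hX : star X = -X) (h : ip T X X = 0) : X = 0 := by
  apply T.pos
  rw [hX, neg_mul, map_neg, Complex.neg_re]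
  exact h

/-- A compact Lie algebra: a space of skew-adjoint elements which is closed under
brackets. -/
structure IsCLie (k : Submodule ℝ A) : Prop where
  skew : ∀ X ∈ k, star X = -X
  brk : ∀ X ∈ k, ∀ Y ∈ k, X * Y - Y * X ∈ k

/-- maximal abelian subspaces -/
structure IsMaxAb (k t : Submodule ℝ A) : Prop where
  le : t ≤ k
  ab : ∀ X ∈ t, ∀ Y ∈ t, X * Y = Y * X
  max : ∀ Z ∈ k, (∀ X ∈ t, X * Z = Z * X) → Z ∈ t

/-- the elements of `k` commuting with all the elements of `s` -/
def cent (k : Submodule ℝ A) (s : Set A) : Submodule ℝ A where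
  carrier := {Z | Z ∈ k ∧ ∀ X ∈ s, X * Z = Z * X}
  zero_mem' := ⟨k.zero_mem, fun X _ => by simp⟩
  add_mem' := by
    rintro a b ⟨ha, ha'⟩ ⟨hb, hb'⟩
    refine ⟨k.add_mem ha hb, fun X hX => ?_⟩
    rw [mul_add, add_mul, ha' X hX, hb' X hX]
  smul_mem' := by
    rintro c a ⟨ha, ha'⟩
    refine ⟨k.smul_mem c ha, fun X hX => ?_⟩
    rw [mul_smul_comm, smul_mul_assoc, ha' X hX]

theorem mem_cent {k : Submodule ℝ A} {s : Set A} {Z : A} :
    Z ∈ cent k s ↔ Z ∈ k ∧ ∀ X ∈ s, X * Z = Z * X := Iff.rfl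

theorem exists_maxAb [FiniteDimensional ℝ A] (k : Submodule ℝ A) : ∃ t, IsMaxAb k t := by
  obtain ⟨t, ht, hmax⟩ := exists_maximal_of_wellFoundedGT
    (fun t : Submodule ℝ A => t ≤ k ∧ ∀ X ∈ t, ∀ Y ∈ t, X * Y = Y * X)
    ⟨⊥, bot_le, by
      intro X hX Y _
      rw [Submodule.mem_bot] at hX
      rw [hX]; simp⟩
  refine ⟨t, ht.1, ht.2, fun Z hZ hc => ?_⟩
  have h1 : t ⊔ Submodule.span ℝ {Z} ≤ t := by
    apply hmax
    · refine ⟨sup_le ht.1 (by rw [Submodule.span_singleton_le_iff_mem]; exact hZ), ?_⟩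
      intro X hX Y hY
      obtain ⟨X1, hX1, X2, hX2, rfl⟩ := Submodule.mem_sup.1 hX
      obtain ⟨Y1, hY1, Y2, hY2, rfl⟩ := Submodule.mem_sup.1 hY
      obtain ⟨a, rfl⟩ := Submodule.mem_span_singleton.1 hX2
      obtain ⟨b, rfl⟩ := Submodule.mem_span_singleton.1 hY2
      have e1 : Commute X1 Y1 := ht.2 X1 hX1 Y1 hY1
      have e2 : Commute X1 Z := hc X1 hX1
      have e3 : Commute Z Y1 := (hc Y1 hY1).symm
      have e4 : Commute (X1 + a • Z) (Y1 + b • Z) :=
        (e1.add_right (e2.smul_right b)).add_left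
          ((e3.smul_left a).add_right (((Commute.refl Z).smul_left a).smul_right b))
      exact e4
    · exact le_sup_left
  exact h1 (Submodule.mem_sup_right (Submodule.mem_span_singleton_self Z))

/-! ### The complexification -/

/-- the complexification of a real space of skew-adjoint elements -/
def cx (d : Submodule ℝ A) : Submodule ℂ A where
  carrier := {Z | ∃ X ∈ d, ∃ Y ∈ d, Z = X + Complex.I • Y}
  zero_mem' := ⟨0, d.zero_mem, 0, d.zero_mem, by simp⟩
  add_mem' := by
    rintro _ _ ⟨X, hX, Y, hY, rfl⟩ ⟨X', hX', Y', hY', rfl⟩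
    refine ⟨X + X', d.add_mem hX hX', Y + Y', d.add_mem hY hY', ?_⟩
    rw [smul_add]
    abel
  smul_mem' := by
    rintro c _ ⟨X, hX, Y, hY, rfl⟩
    refine ⟨c.re • X - c.im • Y, d.sub_mem (d.smul_mem _ hX) (d.smul_mem _ hY),
      c.im • X + c.re • Y, d.add_mem (d.smul_mem _ hX) (d.smul_mem _ hY), ?_⟩
    simp only [← coe_smul']
    have hc : c = c.re + c.im * Complex.I := (Complex.re_add_im c).symm
    conv_lhs => rw [hc]
    have hI : Complex.I * Complex.I = -1 := Complex.I_mul_I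
    have h1 : ((c.re : ℂ) + c.im * Complex.I) * Complex.I = -(c.im : ℂ) + c.re * Complex.I := by
      linear_combination (c.im : ℂ) * hI
    rw [smul_add, smul_smul, h1]
    simp only [add_smul, smul_add, smul_smul, neg_smul]
    rw [mul_comm Complex.I (c.re : ℂ), mul_comm Complex.I (c.im : ℂ)]
    abel

theorem cx_brk {d : Submodule ℝ A} (hd : ∀ X ∈ d, ∀ Y ∈ d, X * Y - Y * X ∈ d)
    {Z W : A} (hZ : Z ∈ cx d) (hW : W ∈ cx d) : Z * W - W * Z ∈ cx d := by
  obtain ⟨X, hX, Y, hY, rfl⟩ := hZ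
  obtain ⟨X', hX', Y', hY', rfl⟩ := hW
  refine ⟨(X * X' - X' * X) - (Y * Y' - Y' * Y), d.sub_mem (hd _ hX _ hX') (hd _ hY _ hY'),
    (X * Y' - Y' * X) + (Y * X' - X' * Y), d.add_mem (hd _ hX _ hY') (hd _ hY _ hX'), ?_⟩
  simp only [add_mul, mul_add, smul_mul_assoc, mul_smul_comm, smul_smul, Complex.I_mul_I,
    smul_add, smul_sub, neg_smul, one_smul]
  abel

/-- the complexification as a Lie ring -/
@[reducible] def cxLieRing (d : Submodule ℝ A) (hd : ∀ X ∈ d, ∀ Y ∈ d, X * Y - Y * X ∈ d) :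
    LieRing (cx d) where
  bracket Z W := ⟨(Z : A) * W - (W : A) * Z, cx_brk hd Z.2 W.2⟩
  add_lie := by
    intro x y z
    apply Subtype.ext
    show ((x : A) + y) * z - z * ((x : A) + y) = (x * z - z * x) + (y * z - z * y)
    noncomm_ring
  lie_add := by
    intro x y z
    apply Subtype.ext
    show (x : A) * ((y : A) + z) - ((y : A) + z) * x = (x * y - y * x) + (x * z - z * x)
    noncomm_ring
  lie_self := by
    intro x
    apply Subtype.ext
    show (x : A) * x - x * x = 0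
    rw [sub_self]
  leibniz_lie := by
    intro x y z
    apply Subtype.ext
    show (x : A) * (y * z - z * y) - (y * z - z * y) * x =
      ((x * y - y * x) * z - z * (x * y - y * x)) + (y * (x * z - z * x) - (x * z - z * x) * y)
    noncomm_ring

/-- the complexification as a Lie algebra -/
@[reducible] def cxLieAlg (d : Submodule ℝ A) (hd : ∀ X ∈ d, ∀ Y ∈ d, X * Y - Y * X ∈ d) :
    @LieAlgebra ℂ (cx d) _ (cxLieRing d hd) :=
  letI := cxLieRing d hd
  { lie_smul := by
      intro c x y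
      apply Subtype.ext
      show (x : A) * (c • (y : A)) - (c • (y : A)) * x = c • (x * y - y * x)
      rw [mul_smul_comm, smul_mul_assoc, smul_sub] }

theorem mem_cx {d : Submodule ℝ A} {Z : A} :
    Z ∈ cx d ↔ ∃ X ∈ d, ∃ Y ∈ d, Z = X + Complex.I • Y := Iff.rfl

end Pool.Agent.J4.H13.TIG
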