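import Pool.Agent.J4.H13.TIG.Mat

/-!
# Stable maximal abelian subspaces

Every unitary matrix which normalizes a compact Lie algebra of matrices stabilizes one of its
maximal abelian subspaces.
-/

set_option autoImplicit false
set_option linter.unusedSectionVars false

namespace Pool.Agent.J4.H13.TIG

open Module Module.End
open scoped ComplexOrder

variable {A : Type} [Ring A] [Algebra ℂ A] [StarRing A] [StarModule ℂ A] (T : TrD A)

/-- the Hermitian form `tr (Z^* W)` -/
noncomputable def hf (Z W : A) : ℂ := T.τ (star Z * W)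

theorem hf_add (Z W W' : A) : hf T Z (W + W') = hf T Z W + hf T Z W' := by
  unfold hf; rw [mul_add, map_add]

theorem hf_sub (Z W W' : A) : hf T Z (W - W') = hf T Z W - hf T Z W' := by
  unfold hf; rw [mul_sub, map_sub]

theorem hf_smul (Z W : A) (c : ℂ) : hf T Z (c • W) = c * hf T Z W := by
  unfold hf; rw [mul_smul_comm, map_smul, smul_eq_mul]

theorem hf_smul_left (Z W : A) (c : ℂ) : hf T (c • Z) W = star c * hf T Z W := by
  unfold hf; rw [star_smul, smul_mul_assoc, map_smul, smul_eq_mul]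

theorem eq_zero_of_hf {Z : A} (h : hf T Z Z = 0) : Z = 0 := by
  apply T.pos
  have h1 : T.τ (star Z * Z) = 0 := h
  rw [h1, Complex.zero_re]

theorem hf_conj {u v : A} (hv : star u = v) (hvu : v * u = 1) (Z W : A) :
    hf T (u * Z * v) (u * W * v) = hf T Z W := by
  unfold hf
  have hv' : star v = u := by rw [← hv, star_star]
  rw [star_mul, star_mul, hv, hv']
  have h1 : u * (star Z * v) * (u * W * v) = u * (star Z * (v * u) * W * v) := by
    simp only [mul_assoc]
  rw [h1, hvu, mul_one, T.comm, mul_assoc, mul_assoc, hvu, mul_one]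

include T in
/-- the norm of an eigenvalue of a conjugation by a unitary matrix is one -/
theorem eig_norm {u v : A} (hv : star u = v) (hvu : v * u = 1) {Z : A} (hZ : Z ≠ 0) {μ : ℂ}
    (h : u * Z * v = μ • Z) : ‖μ‖ = 1 := by
  have h1 := hf_conj T hv hvu Z Z
  rw [h, hf_smul, hf_smul_left] at h1
  have h2 : hf T Z Z ≠ 0 := fun h0 => hZ (eq_zero_of_hf T h0)
  have h3 : μ * star μ = 1 := by
    apply mul_right_cancel₀ h2
    rw [one_mul, mul_assoc]
    exact h1
  have h4 : ((‖μ‖ ^ 2 : ℝ) : ℂ) = 1 := by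
    rw [← h3]
    have := Complex.mul_conj μ
    rw [Complex.normSq_eq_norm_sq] at this
    exact this.symm
  have h5 : ‖μ‖ ^ 2 = 1 := by exact_mod_cast h4
  have h6 : 0 ≤ ‖μ‖ := norm_nonneg _
  nlinarith

include T in
/-- conjugations by unitary matrices are semisimple -/
theorem eig_semi {u v : A} (hv : star u = v) (hvu : v * u = 1) {Z W : A} {μ : ℂ}
    (h1 : u * Z * v = μ • Z + W) (h2 : u * W * v = μ • W) : W = 0 := by
  by_contra hW
  have hμ := eig_norm T hv hvu hW h2
  have hμ2 : star μ * μ = 1 := by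
    have := Complex.mul_conj μ
    rw [Complex.normSq_eq_norm_sq, hμ] at this
    rw [mul_comm]
    simpa using this
  have h3 := hf_conj T hv hvu W Z
  rw [h1, h2, hf_smul_left, hf_add, hf_smul] at h3
  have h4 : star μ * hf T W W = 0 := by
    have : star μ * (μ * hf T W Z) = hf T W Z := by rw [← mul_assoc, hμ2, one_mul]
    rw [mul_add, this] at h3
    exact add_eq_left.1 h3
  have h5 : star μ ≠ 0 := by
    intro h
    rw [h, zero_mul] at hμ2
    exact zero_ne_one hμ2
  exact hW (eq_zero_of_hf T ((mul_eq_zero.1 h4).resolve_left h5))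

include T in
theorem no_fixed [FiniteDimensional ℂ A] (d : Submodule ℝ (A)) (hskew : ∀ X ∈ d, star X = -X)
    (hd : ∀ X ∈ d, ∀ Y ∈ d, X * Y - Y * X ∈ d)
    (hperf : ∀ e : Submodule ℝ (A), (∀ X ∈ d, ∀ Y ∈ d, X * Y - Y * X ∈ e) → d ≤ e)
    (u v : A) (hv : star u = v) (hvu : v * u = 1) (hud : ∀ X ∈ d, u * X * v ∈ d)
    (hfix : ∀ X ∈ d, u * X * v = X → X = 0) : d = ⊥ := by
  letI := cxLieRing d hd
  letI := cxLieAlg d hd
  let L := cx d
  have huL : ∀ Z ∈ L, u * Z * v ∈ L := by
    rintro _ ⟨X, hX, Y, hY, rfl⟩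
    refine ⟨u * X * v, hud X hX, u * Y * v, hud Y hY, ?_⟩
    rw [mul_add, add_mul, mul_smul_comm, smul_mul_assoc]
  let σ : L →ₗ[ℂ] L :=
    { toFun := fun Z => ⟨u * (Z : A) * v, huL Z Z.2⟩
      map_add' := by
        intro Z W
        apply Subtype.ext
        show u * ((Z : A) + (W : A)) * v = u * (Z : A) * v + u * (W : A) * v
        rw [mul_add, add_mul]
      map_smul' := by
        intro c Z
        apply Subtype.ext
        show u * (c • (Z : A)) * v = c • (u * (Z : A) * v)
        rw [mul_smul_comm, smul_mul_assoc] }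
  have hσc : ∀ Z : L, ((σ Z : L) : A) = u * (Z : A) * v := fun _ => rfl
  have hbr : ∀ Z W : L, ((⁅Z, W⁆ : L) : A) = (Z : A) * W - (W : A) * Z := fun _ _ => rfl
  have hσ : ∀ x y : L, σ ⁅x, y⁆ = ⁅σ x, σ y⁆ := by
    intro x y
    apply Subtype.ext
    rw [hbr, hσc, hσc, hσc, hbr]
    have e1 : ∀ P Q : A, u * P * v * (u * Q * v) = u * (P * Q) * v := by
      intro P Q
      calc u * P * v * (u * Q * v) = u * P * (v * u) * Q * v := by simp only [mul_assoc]
        _ = _ := by rw [hvu, mul_one]; simp only [mul_assoc]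
    rw [e1, e1, mul_sub, sub_mul]
  have hmain := base σ hσ ?_ ?_ ?_ ?_
  · rw [Submodule.eq_bot_iff]
    intro X hX
    have h1 := hmain ⟨X, ⟨X, hX, 0, d.zero_mem, by simp⟩⟩
    exact congrArg Subtype.val h1
  · -- perfect
    intro B hB
    let e : Submodule ℝ (A) :=
      { carrier := {X | X ∈ d ∧ ∃ Z ∈ B, (Z : A) = X}
        zero_mem' := ⟨d.zero_mem, 0, B.zero_mem, rfl⟩
        add_mem' := by
          rintro a b ⟨ha, Z, hZ, hZa⟩ ⟨hb, W, hW, hWb⟩
          refine ⟨d.add_mem ha hb, Z + W, B.add_mem hZ hW, ?_⟩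
          show (Z : A) + (W : A) = a + b
          rw [hZa, hWb]
        smul_mem' := by
          rintro c a ⟨ha, Z, hZ, hZa⟩
          refine ⟨d.smul_mem c ha, (c : ℂ) • Z, B.smul_mem _ hZ, ?_⟩
          show (c : ℂ) • (Z : A) = c • a
          rw [hZa, coe_smul'] }
    have hde : d ≤ e := by
      apply hperf
      intro X hX Y hY
      refine ⟨hd X hX Y hY, ⁅(⟨X, ⟨X, hX, 0, d.zero_mem, by simp⟩⟩ : L),
        (⟨Y, ⟨Y, hY, 0, d.zero_mem, by simp⟩⟩ : L)⁆, hB _ _, rfl⟩
    rw [eq_top_iff]
    rintro ⟨_, ⟨X, hX, Y, hY, rfl⟩⟩ -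
    obtain ⟨_, Z, hZ, hZX⟩ := hde hX
    obtain ⟨_, W, hW, hWY⟩ := hde hY
    have h1 : Z + Complex.I • W ∈ B := B.add_mem hZ (B.smul_mem _ hW)
    have h2 : (⟨X + Complex.I • Y, ⟨X, hX, Y, hY, rfl⟩⟩ : L) = Z + Complex.I • W := by
      apply Subtype.ext
      show X + Complex.I • Y = (Z : A) + Complex.I • (W : A)
      rw [hZX, hWY]
    rw [h2]
    exact h1
  · -- diagonalizable
    rw [eq_top_iff, ← iSup_maxGenEigenspace_eq_top σ]
    refine iSup_mono fun μ => ?_
    intro Z hZ
    rw [mem_maxGenEigenspace] at hZ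
    obtain ⟨k, hk⟩ := hZ
    rw [mem_eigenspace_iff]
    have hker : ∀ W : L, (σ - algebraMap ℂ _ μ) ((σ - algebraMap ℂ _ μ) W) = 0 →
        (σ - algebraMap ℂ _ μ) W = 0 := by
      intro W hW
      obtain ⟨V, hV⟩ : ∃ V, V = (σ - algebraMap ℂ _ μ) W := ⟨_, rfl⟩
      rw [← hV] at hW ⊢
      have e1 : σ W = μ • W + V := by
        rw [hV, LinearMap.sub_apply, algebraMap_end_apply]
        abel
      have e2 : σ V = μ • V := by
        rw [LinearMap.sub_apply, algebraMap_end_apply] at hW
        exact sub_eq_zero.1 hW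
      apply Subtype.ext
      exact eig_semi T hv hvu (congrArg Subtype.val e1) (congrArg Subtype.val e2)
    have hk2 : ∀ k : ℕ, ∀ W : L, ((σ - μ • (1 : End ℂ L)) ^ k) W = 0 → σ W = μ • W ∨ k = 0 ∧ W = 0 := by
      intro k
      induction k with
      | zero => intro W hW; right; exact ⟨rfl, by simpa using hW⟩
      | succ k ih =>
        intro W hW
        left
        have e0 : (σ - μ • (1 : End ℂ L)) = (σ - algebraMap ℂ (End ℂ L) μ) := by
          rw [Algebra.algebraMap_eq_smul_one]
        rw [pow_succ, Module.End.mul_apply] at hW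
        rcases ih _ hW with h | ⟨_, h⟩
        · have h1 : (σ - algebraMap ℂ _ μ) ((σ - algebraMap ℂ _ μ) W) = 0 := by
            rw [← e0, LinearMap.sub_apply]
            rw [h]
            simp
          have h2 := hker W h1
          rw [LinearMap.sub_apply, algebraMap_end_apply] at h2
          exact sub_eq_zero.1 h2
        · rw [LinearMap.sub_apply] at h
          have h3 := sub_eq_zero.1 h
          rw [h3]
          simp
    rcases hk2 k Z hk with h | ⟨_, h⟩
    · exact h
    · rw [h]; simp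
  · -- no fixed vectors
    rintro ⟨_, ⟨X, hX, Y, hY, rfl⟩⟩ h
    have h1 : u * (X + Complex.I • Y) * v = X + Complex.I • Y := congrArg Subtype.val h
    have hX' := hskew _ (hud X hX)
    have hY' := hskew _ (hud Y hY)
    have h2 : star (u * (X + Complex.I • Y) * v) = star (X + Complex.I • Y) := by rw [h1]
    rw [mul_add, add_mul, mul_smul_comm, smul_mul_assoc] at h1 h2
    rw [star_add, star_add, star_smul, star_smul, hX', hY',
      hskew X hX, hskew Y hY, Complex.star_def, Complex.conj_I, smul_neg, smul_neg, neg_smul,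
      neg_neg, neg_smul, neg_neg] at h2
    have h3 : u * X * v = X := by
      have h4 : (2 : ℂ) • (u * X * v) = (2 : ℂ) • X := by
        have : (2 : ℂ) • (u * X * v) = (u * X * v + Complex.I • (u * Y * v)) -
            (-(u * X * v) + Complex.I • (u * Y * v)) := by
          rw [two_smul]; abel
        rw [this, h1, h2, two_smul]
        abel
      exact smul_right_injective _ (two_ne_zero) h4
    have h5 : u * Y * v = Y := by
      have h4 : Complex.I • (u * Y * v) = Complex.I • Y := by
        rw [h3] at h1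
        exact add_left_cancel h1
      exact smul_right_injective _ Complex.I_ne_zero h4
    apply Subtype.ext
    show X + Complex.I • Y = 0
    rw [hfix X hX h3, hfix Y hY h5]
    simp
  · -- eigenvalues
    intro μ hμ
    obtain ⟨Z, hZ, hZ0⟩ := (Submodule.ne_bot_iff _).1 hμ
    rw [mem_eigenspace_iff] at hZ
    have hZ0' : (Z : A) ≠ 0 := fun h => hZ0 (Subtype.ext h)
    exact eig_norm T hv hvu hZ0' (congrArg Subtype.val hZ)

end Pool.Agent.J4.H13.TIG
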