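import Pool.Agent.J4.H13.TIG.Stab

/-!
# Stable maximal abelian subspaces, continued
-/

set_option autoImplicit false
set_option linter.unusedSectionVars false

namespace Pool.Agent.J4.H13.TIG

open Module
open scoped ComplexOrder

variable {A : Type} [Ring A] [Algebra ℂ A] [StarRing A] [StarModule ℂ A] (T : TrD A)

/-- the bilinear form `ip` -/
noncomputable def ipB : LinearMap.BilinForm ℝ A :=
  LinearMap.mk₂ ℝ (ip T) (ip_add_left T) (fun c X Y => by rw [ip_smul_left, smul_eq_mul])
    (fun X Y Z => by rw [ip_comm, ip_add_left, ip_comm T Y, ip_comm T Z])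
    (fun c X Y => by rw [ip_comm, ip_smul_left, ip_comm T Y, smul_eq_mul])

theorem ipB_apply (X Y : A) : ipB T X Y = ip T X Y := rfl

/-- orthogonal decomposition with respect to a space of skew-Hermitian matrices -/
theorem exists_decomp [FiniteDimensional ℝ A] (e : Submodule ℝ (A)) (he : ∀ X ∈ e, star X = -X) (X : A) :
    ∃ E ∈ e, ∃ W, X = E + W ∧ ∀ F ∈ e, ip T F W = 0 := by
  have hrefl : (ipB T).IsRefl := by
    intro A B h
    rw [ipB_apply] at h ⊢
    rw [ip_comm]
    exact h
  have hnd : ((ipB T).restrict e).Nondegenerate := by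
    have h0 : ∀ F : e, ((ipB T).restrict e) F F = 0 → F = 0 := by
      intro F hF
      apply Subtype.ext
      exact eq_zero_of_ip T (he F F.2) hF
    refine ⟨fun F hF => h0 F (hF F), fun F hF => h0 F (hF F)⟩
  have hc := LinearMap.BilinForm.isCompl_orthogonal_of_restrict_nondegenerate hrefl hnd
  have hX : X ∈ e ⊔ (ipB T).orthogonal e := by rw [hc.sup_eq_top]; trivial
  obtain ⟨E, hE, W, hW, rfl⟩ := Submodule.mem_sup.1 hX
  refine ⟨E, hE, W, rfl, fun F hF => ?_⟩
  exact hW F hF

/-- the span of the brackets of elements of `z` -/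
noncomputable def der (z : Submodule ℝ (A)) : Submodule ℝ (A) :=
  Submodule.span ℝ {W | ∃ X ∈ z, ∃ Y ∈ z, W = X * Y - Y * X}

theorem brk_mem_der {z : Submodule ℝ (A)} {X Y : A} (hX : X ∈ z) (hY : Y ∈ z) :
    X * Y - Y * X ∈ der z := Submodule.subset_span ⟨X, hX, Y, hY, rfl⟩

theorem der_le {z : Submodule ℝ (A)} (hz : IsCLie z) : der z ≤ z := by
  rw [der, Submodule.span_le]
  rintro _ ⟨X, hX, Y, hY, rfl⟩
  exact hz.brk X hX Y hY

include T in
theorem central_zero {z : Submodule ℝ (A)} (hz : IsCLie z) {W : A} (hW : W ∈ der z)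
    (hc : ∀ Z ∈ z, Z * W = W * Z) : W = 0 := by
  have h1 : ∀ D ∈ der z, ip T D W = 0 := by
    intro D hD
    induction hD using Submodule.span_induction with
    | mem x hx =>
      obtain ⟨X, _, Y, hY, rfl⟩ := hx
      rw [ip_brk, hc Y hY, sub_self, ip_zero_right]
    | zero => exact ip_zero_left T _
    | add x y _ _ ihx ihy => rw [ip_add_left, ihx, ihy, add_zero]
    | smul a x _ ih => rw [ip_smul_left, ih, mul_zero]
  exact eq_zero_of_ip T (hz.skew W (der_le hz hW)) (h1 W hW)

include T in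
/-- the derived algebra of a compact Lie algebra is perfect -/
theorem der_perfect [FiniteDimensional ℝ A] {z : Submodule ℝ (A)} (hz : IsCLie z) : der z ≤ der (der z) := by
  have hdz := der_le hz
  have hdd : der (der z) ≤ der z := by
    rw [der, Submodule.span_le]
    rintro _ ⟨X, hX, Y, hY, rfl⟩
    exact brk_mem_der (hdz hX) (hdz hY)
  intro D hD
  obtain ⟨E, hE, W, hDW, hort⟩ := exists_decomp T (der (der z))
    (fun X hX => hz.skew X (hdz (hdd hX))) D
  have hWd : W ∈ der z := by
    have : W = D - E := by rw [hDW]; abel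
    rw [this]
    exact Submodule.sub_mem _ hD (hdd hE)
  have h1 : ∀ Y ∈ der z, Y * W - W * Y = 0 := by
    intro Y hY
    have h2 : Y * W - W * Y ∈ der z := brk_mem_der (hdz hY) (hdz hWd)
    apply eq_zero_of_ip T (hz.skew _ (hdz h2))
    rw [← ip_brk]
    exact hort _ (brk_mem_der h2 hY)
  have h3 : ∀ Z ∈ z, Z * W = W * Z := by
    intro Z hZ
    have h2 : Z * W - W * Z ∈ der z := brk_mem_der hZ (hdz hWd)
    apply sub_eq_zero.1
    apply eq_zero_of_ip T (hz.skew _ (hdz h2))
    rw [ip_brk]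
    have h4 := h1 _ h2
    have h5 : W * (Z * W - W * Z) - (Z * W - W * Z) * W = 0 := by
      rw [← neg_sub, h4, neg_zero]
    rw [h5, ip_zero_right]
  rw [central_zero T hz hWd h3, add_zero] at hDW
  rw [hDW]
  exact hE

include T in
/-- **Stable maximal abelian subspaces.** -/
theorem exists_stable [FiniteDimensional ℝ A] [FiniteDimensional ℂ A] (k : Submodule ℝ (A)) (hk : IsCLie k) (u v : A) (hv : star u = v)
    (hvu : v * u = 1) (huk : ∀ X ∈ k, u * X * v ∈ k) :
    ∃ t, IsMaxAb k t ∧ ∀ X ∈ t, u * X * v ∈ t := by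
  let f : Submodule ℝ (A) :=
    { carrier := {X | X ∈ k ∧ u * X * v = X}
      zero_mem' := ⟨k.zero_mem, by simp⟩
      add_mem' := by
        rintro a b ⟨ha, ha'⟩ ⟨hb, hb'⟩
        refine ⟨k.add_mem ha hb, ?_⟩
        rw [mul_add, add_mul, ha', hb']
      smul_mem' := by
        rintro c a ⟨ha, ha'⟩
        refine ⟨k.smul_mem c ha, ?_⟩
        rw [mul_smul_comm, smul_mul_assoc, ha'] }
  obtain ⟨s, hs⟩ := exists_maxAb f
  obtain ⟨z, hzdef⟩ : ∃ z, z = cent k (s : Set (A)) := ⟨_, rfl⟩
  have hzmem : ∀ Z, Z ∈ z ↔ Z ∈ k ∧ ∀ X ∈ s, X * Z = Z * X := by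
    intro Z
    rw [hzdef]
    exact mem_cent
  have hmulc : ∀ P Q : A, u * P * v * (u * Q * v) = u * (P * Q) * v := by
    intro P Q
    calc u * P * v * (u * Q * v) = u * P * (v * u) * Q * v := by simp only [mul_assoc]
      _ = _ := by rw [hvu, mul_one]; simp only [mul_assoc]
  have hz : IsCLie z := by
    refine ⟨fun X hX => hk.skew X ((hzmem X).1 hX).1, fun X hX Y hY => ?_⟩
    rw [hzmem] at hX hY ⊢
    refine ⟨hk.brk X hX.1 Y hY.1, fun S hS => ?_⟩
    have e1 : Commute S X := hX.2 S hS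
    have e2 : Commute S Y := hY.2 S hS
    exact (e1.mul_right e2).sub_right (e2.mul_right e1)
  have hzu : ∀ Z ∈ z, u * Z * v ∈ z := by
    intro Z hZ
    rw [hzmem] at hZ ⊢
    refine ⟨huk Z hZ.1, fun S hS => ?_⟩
    have hSf : u * S * v = S := (hs.le hS).2
    calc S * (u * Z * v) = u * S * v * (u * Z * v) := by rw [hSf]
      _ = u * (S * Z) * v := hmulc _ _
      _ = u * (Z * S) * v := by rw [hZ.2 S hS]
      _ = u * Z * v * (u * S * v) := (hmulc _ _).symm
      _ = u * Z * v * S := by rw [hSf]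
  have hdz := der_le hz
  have hsz : s ≤ z := by
    intro S hS
    rw [hzmem]
    exact ⟨(hs.le hS).1, fun X hX => hs.ab X hX S hS⟩
  have hd0 : der z = ⊥ := by
    apply no_fixed T (der z) (fun X hX => hz.skew X (hdz hX))
      (fun X hX Y hY => brk_mem_der (hdz hX) (hdz hY)) ?_ u v hv hvu ?_ ?_
    · intro e he
      refine (der_perfect T hz).trans ?_
      rw [der, Submodule.span_le]
      rintro _ ⟨X, hX, Y, hY, rfl⟩
      exact he X hX Y hY
    · intro X hX
      induction hX using Submodule.span_induction with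
      | mem x hx =>
        obtain ⟨X, hX, Y, hY, rfl⟩ := hx
        rw [mul_sub, sub_mul, ← hmulc, ← hmulc]
        exact brk_mem_der (hzu X hX) (hzu Y hY)
      | zero => simp
      | add x y _ _ ihx ihy => rw [mul_add, add_mul]; exact Submodule.add_mem _ ihx ihy
      | smul a x _ ih => rw [mul_smul_comm, smul_mul_assoc]; exact Submodule.smul_mem _ a ih
    · intro X hX hfix
      have hXz := hdz hX
      have hXk := (hzmem X).1 hXz
      have hXs : X ∈ s := hs.max X ⟨hXk.1, hfix⟩ hXk.2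
      apply central_zero T hz hX
      intro Z hZ
      exact (((hzmem Z).1 hZ).2 X hXs).symm
  refine ⟨z, ⟨fun Z hZ => ((hzmem Z).1 hZ).1, ?_, ?_⟩, hzu⟩
  · intro X hX Y hY
    have := brk_mem_der hX hY
    rw [hd0, Submodule.mem_bot] at this
    exact sub_eq_zero.1 this
  · intro Z hZ hc
    rw [hzmem]
    exact ⟨hZ, fun X hX => hc X (hsz hX)⟩

end Pool.Agent.J4.H13.TIG
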